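import Pool.Agent.Y530.TB.Stm

/-!
# Removal of a body with at most six bars (job TB-ROW of helper530)
-/

set_option autoImplicit false

namespace Pool.Agent.Y781.TB.Row

open Finset Module Pool.Agent.W824.BJ Pool.Agent.Y530.BB Pool.Agent.Y530.TB

section gen

variable {V B : Type} {k : Type*} [Field k]

open Classical in
/-- the equations of the bars of `F` -/
noncomputable def rows (β : V → B) (F : Finset (Sym2 V)) (y : V → Fin 4 → k) :
    (B → Fin 6 → k) →ₗ[k] (V × V → k) :=
  LinearMap.pi fun c => if s(c.1, c.2) ∈ F then rw0 β y c.1 c.2 else 0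

theorem mem_ker_rows {β : V → B} {F : Finset (Sym2 V)} {y : V → Fin 4 → k} {n : B → Fin 6 → k} :
    n ∈ LinearMap.ker (rows β F y) ↔ n ∈ BM β F y := by
  classical
  rw [LinearMap.mem_ker, mem_bm]
  constructor
  · intro h u v huv
    have h1 := congrFun h (u, v)
    simp only [rows, LinearMap.pi_apply, if_pos huv, Pi.zero_apply] at h1
    exact h1
  · intro h
    funext c
    simp only [rows, LinearMap.pi_apply, Pi.zero_apply]
    split_ifs with hc
    · exact h c.1 c.2 hc
    · rfl

theorem BM_union [DecidableEq V] (β : V → B) (F F' : Finset (Sym2 V)) (y : V → Fin 4 → k) :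
    BM β (F ∪ F') y = BM β F y ⊓ LinearMap.ker (rows β F' y) := by
  ext n
  rw [Submodule.mem_inf, mem_ker_rows, mem_bm, mem_bm, mem_bm]
  constructor
  · intro h
    exact ⟨fun u v huv => h u v (Finset.mem_union_left _ huv),
      fun u v huv => h u v (Finset.mem_union_right _ huv)⟩
  · rintro ⟨h1, h2⟩ u v huv
    rcases Finset.mem_union.1 huv with h | h
    · exact h1 u v h
    · exact h2 u v h

/-- the screws which satisfy the equations of the bars of `F` -/
def SS (F : Finset (Sym2 V)) (y : V → Fin 4 → k) : Submodule k (Fin 6 → k) where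
  carrier := {T | ∀ u v, s(u, v) ∈ F → pr T (y u) (y v) = 0}
  add_mem' := by
    intro n m hn hm u v h
    rw [pr_add, hn u v h, hm u v h, add_zero]
  zero_mem' := by
    intro u v _
    rw [pr_zero]
  smul_mem' := by
    intro a n hn u v h
    rw [pr_smul, hn u v h, mul_zero]

theorem mem_SS {F : Finset (Sym2 V)} {y : V → Fin 4 → k} {T : Fin 6 → k} :
    T ∈ SS F y ↔ ∀ u v, s(u, v) ∈ F → pr T (y u) (y v) = 0 := Iff.rfl

theorem pr_neg' (c : Fin 6 → k) (X Y : Fin 4 → k) : pr (-c) X Y = - pr c X Y := by
  simp [pr]; ring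

/-- two bodies -/
noncomputable def eqv (β : V → Bool) (F : Finset (Sym2 V)) (y : V → Fin 4 → k)
    (hF : ∀ u v, s(u, v) ∈ F → (β u = true ∧ β v = false) ∨ (β u = false ∧ β v = true)) :
    BM β F y ≃ₗ[k] SS F y × (Fin 6 → k) where
  toFun n := (⟨n.1 true - n.1 false, by
    intro u v huv
    have h := n.2 u v huv
    rcases hF u v huv with ⟨h1, h2⟩ | ⟨h1, h2⟩
    · rw [h1, h2] at h
      exact h
    · rw [h1, h2] at h
      have e : n.1 true - n.1 false = -(n.1 false - n.1 true) := by abel
      rw [e, pr_neg', h, neg_zero]⟩, n.1 false)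
  map_add' n m := by
    refine Prod.ext (Subtype.ext ?_) ?_
    · change (n.1 true + m.1 true) - (n.1 false + m.1 false) =
        (n.1 true - n.1 false) + (m.1 true - m.1 false)
      abel
    · rfl
  map_smul' a n := by
    refine Prod.ext (Subtype.ext ?_) ?_
    · change a • n.1 true - a • n.1 false = a • (n.1 true - n.1 false)
      rw [smul_sub]
    · rfl
  invFun p := ⟨fun b => if b then p.1.1 + p.2 else p.2, by
    intro u v huv
    have h := p.1.2 u v huv
    rcases hF u v huv with ⟨h1, h2⟩ | ⟨h1, h2⟩
    · rw [h1, h2]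
      simpa using h
    · rw [h1, h2]
      have e : ((if false = true then p.1.1 + p.2 else p.2) -
        (if true = true then p.1.1 + p.2 else p.2) : Fin 6 → k) = -p.1.1 := by
        simp
      rw [e, pr_neg', h, neg_zero]⟩
  left_inv n := by
    refine Subtype.ext ?_
    funext b
    cases b
    · rfl
    · change (n.1 true - n.1 false) + n.1 false = n.1 true
      abel
  right_inv p := by
    refine Prod.ext (Subtype.ext ?_) ?_
    · change (p.1.1 + p.2) - p.2 = p.1.1
      abel
    · rfl

theorem finrank_eqv (β : V → Bool) (F : Finset (Sym2 V)) (y : V → Fin 4 → k)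
    (hF : ∀ u v, s(u, v) ∈ F → (β u = true ∧ β v = false) ∨ (β u = false ∧ β v = true)) :
    finrank k (BM β F y) = finrank k (SS F y) + 6 := by
  rw [(eqv β F y hF).finrank_eq, Module.finrank_prod, Module.finrank_fin_fun]

/-- each bar reduces the dimension by at most one -/
theorem le_union [DecidableEq V] [Finite B] (β : V → B) (F F' : Finset (Sym2 V))
    (y : V → Fin 4 → k) :
    finrank k (BM β F y) ≤ finrank k (BM β (F ∪ F') y) + F'.card := by
  induction F' using Finset.induction_on with
  | empty =>
    rw [Finset.union_empty]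
    exact Nat.le_add_right _ _
  | insert e F' he ih =>
    have h1 := le_insert β (F ∪ F') y e
    rw [Finset.card_insert_of_notMem he, Finset.union_insert]
    omega

end gen

/-- removal of a body with at most six bars, at most two at each point -/
theorem t : S_ROW := by
  intro V B _ _ β y F0 F1 h0 h1 hc hcap
  classical
  -- the system of two bodies
  set β2 : V → Bool := fun v => decide (β v = y) with hβ2
  have hF : ∀ u v, s(u, v) ∈ F1 →
      (β2 u = true ∧ β2 v = false) ∨ (β2 u = false ∧ β2 v = true) := by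
    intro u v huv
    rcases h1 u v huv with ⟨a, b⟩ | ⟨a, b⟩
    · exact Or.inl ⟨decide_eq_true a, decide_eq_false b⟩
    · exact Or.inr ⟨decide_eq_false a, decide_eq_true b⟩
  have hsp : Sparse β2 F1 := by
    intro C hC
    rcases (ins β2 F1 C).eq_empty_or_nonempty with he | ⟨e, he⟩
    · rw [he, Finset.card_empty]
      have := Finset.card_pos.2 hC
      omega
    · have hle : (ins β2 F1 C).card ≤ F1.card :=
        Finset.card_le_card (fun x hx => (mem_ins.1 hx).1)
      have h2 : 2 ≤ C.card := by
        induction e using Sym2.ind with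
        | _ u v =>
          rw [mem_ins'] at he
          have hne : β2 u ≠ β2 v := by
            rcases hF u v he.1 with ⟨a, b⟩ | ⟨a, b⟩ <;> rw [a, b] <;> decide
          have : ({β2 u, β2 v} : Finset Bool) ⊆ C := by
            intro x hx
            rcases Finset.mem_insert.1 hx with rfl | hx
            · exact he.2.1
            · rw [Finset.mem_singleton.1 hx]
              exact he.2.2
          calc 2 = ({β2 u, β2 v} : Finset Bool).card := (Finset.card_pair hne).symm
            _ ≤ C.card := Finset.card_le_card this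
      omega
  have hPP := main_all F1.card V Bool β2 F1 rfl hcap hsp
  have hS : finrank (PK V) (SS F1 (gx V)) + F1.card = 6 := by
    have h2 := finrank_eqv β2 F1 (gx V) hF
    have h3 : gb β2 F1 = finrank (PK V) (BM β2 F1 (gx V)) := rfl
    rw [h3, h2] at hPP
    simp only [Fintype.card_bool] at hPP
    omega
  -- the lower bound
  have hu : finrank (PK V) (BM β F0 (gx V)) ≤
      finrank (PK V) (BM β (F0 ∪ F1) (gx V)) + F1.card := le_union β F0 F1 (gx V)
  -- the upper bound
  set M0 := BM β F0 (gx V) with hM0
  set J : (Fin 6 → PK V) →ₗ[PK V] (B → Fin 6 → PK V) :=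
    LinearMap.single (PK V) (fun _ : B => Fin 6 → PK V) y with hJ
  have hJy : ∀ T, J T y = T := by
    intro T
    rw [hJ, LinearMap.coe_single]
    exact Pi.single_eq_same _ _
  have hJn : ∀ T b, b ≠ y → J T b = 0 := by
    intro T b hb
    rw [hJ, LinearMap.coe_single]
    exact Pi.single_eq_of_ne hb _
  have hmem : ∀ T, J T ∈ M0 := by
    intro T u v huv
    rw [hJn T _ (h0 u v huv).1, hJn T _ (h0 u v huv).2, sub_self, pr_zero]
  have hker : LinearMap.ker (rows β F1 (gx V) ∘ₗ J) = SS F1 (gx V) := by
    ext T
    rw [LinearMap.mem_ker, LinearMap.comp_apply, ← LinearMap.mem_ker, mem_ker_rows, mem_bm, mem_SS]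
    refine forall₃_congr fun u v huv => ?_
    rcases h1 u v huv with ⟨a, b⟩ | ⟨a, b⟩
    · rw [a, hJy, hJn T _ b, sub_zero]
    · rw [b, hJy, hJn T _ a, zero_sub, pr_neg', neg_eq_zero]
  have hrange : LinearMap.range (rows β F1 (gx V) ∘ₗ J) ≤
      LinearMap.range (rows β F1 (gx V) ∘ₗ M0.subtype) := by
    rintro _ ⟨T, rfl⟩
    exact ⟨⟨J T, hmem T⟩, rfl⟩
  have hr1 := LinearMap.finrank_range_add_finrank_ker (rows β F1 (gx V) ∘ₗ J)
  rw [hker, Module.finrank_fin_fun] at hr1
  have hr2 := Submodule.finrank_mono hrange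
  have hr3 := finrank_inf_ker M0 (rows β F1 (gx V))
  have hun : BM β (F0 ∪ F1) (gx V) = M0 ⊓ LinearMap.ker (rows β F1 (gx V)) := BM_union β F0 F1 _
  rw [← hun] at hr3
  have h8 : finrank (PK V) (BM β (F0 ∪ F1) (gx V)) + F1.card = finrank (PK V) M0 := by omega
  exact h8

end Pool.Agent.Y781.TB.Row
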